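import Pool.Agent.helper8.T5.SpecU

set_option autoImplicit false

namespace Pool.Agent.T5

open Finset NumberField Pool.Agent.helper3.FT Pool.Agent.helper47.RA

theorem UE_num (N Y C ε c δ : ℝ) (hε0 : 0 < ε) (hC : 1 ≤ C) (hN1 : 1 ≤ N)
    (hN : (2 * C) ^ (2 / ε) ≤ N) (hY0 : 0 ≤ Y) (hc : 2 * ε ≤ c) (hδ : 2 * ε ≤ δ / 200) :
    C * N ^ ε * (Y * N ^ (1 / 2 - δ / 200) + Y * N ^ (1 / 2 - c)) ≤
      N ^ (-(ε / 2)) * (Y * √N) := by
  have hN0 : 0 < N := by linarith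
  have h1 : N ^ (1 / 2 - δ / 200) ≤ N ^ (1 / 2 - 2 * ε) :=
    Real.rpow_le_rpow_of_exponent_le hN1 (by linarith)
  have h2 : N ^ (1 / 2 - c) ≤ N ^ (1 / 2 - 2 * ε) :=
    Real.rpow_le_rpow_of_exponent_le hN1 (by linarith)
  have h3 : 2 * C ≤ N ^ (ε / 2) := by
    have h4 := Real.rpow_le_rpow (by positivity) hN (by positivity : 0 ≤ ε / 2)
    rw [← Real.rpow_mul (by linarith)] at h4
    have e : 2 / ε * (ε / 2) = 1 := by field_simp
    rw [e, Real.rpow_one] at h4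
    exact h4
  have e1 : N ^ ε * N ^ (1 / 2 - 2 * ε) = N ^ (1 / 2 - ε) := by
    rw [← Real.rpow_add hN0]
    ring_nf
  have e2 : N ^ (ε / 2) * N ^ (1 / 2 - ε) = N ^ (-(ε / 2)) * √N := by
    rw [Real.sqrt_eq_rpow, ← Real.rpow_add hN0, ← Real.rpow_add hN0]
    ring_nf
  have hp1 : 0 ≤ N ^ ε := Real.rpow_nonneg hN0.le _
  have hp2 : 0 ≤ N ^ (1 / 2 - ε) := Real.rpow_nonneg hN0.le _
  calc C * N ^ ε * (Y * N ^ (1 / 2 - δ / 200) + Y * N ^ (1 / 2 - c))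
      ≤ C * N ^ ε * (Y * N ^ (1 / 2 - 2 * ε) + Y * N ^ (1 / 2 - 2 * ε)) := by
        apply mul_le_mul_of_nonneg_left _ (mul_nonneg (by linarith) hp1)
        exact add_le_add (mul_le_mul_of_nonneg_left h1 hY0) (mul_le_mul_of_nonneg_left h2 hY0)
    _ = (2 * C) * (N ^ ε * N ^ (1 / 2 - 2 * ε)) * Y := by ring
    _ = (2 * C) * N ^ (1 / 2 - ε) * Y := by rw [e1]
    _ ≤ N ^ (ε / 2) * N ^ (1 / 2 - ε) * Y := by
        apply mul_le_mul_of_nonneg_right _ hY0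
        exact mul_le_mul_of_nonneg_right h3 hp2
    _ = N ^ (-(ε / 2)) * (Y * √N) := by rw [e2]; ring

theorem UE (hUM : UM_stmt) : UE_stmt := by
  intro δ hδ hδ1
  obtain ⟨c, hc, h⟩ := hUM δ hδ hδ1
  have hm : 0 < min c (δ / 200) := lt_min hc (by linarith)
  have hm1 : min c (δ / 200) ≤ c := min_le_left _ _
  have hm2 : min c (δ / 200) ≤ δ / 200 := min_le_right _ _
  obtain ⟨C, hC, h⟩ := h (min c (δ / 200) / 2) (by linarith)
  have hone : 1 ≤ (2 * C) ^ (2 / (min c (δ / 200) / 2)) :=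
    Real.one_le_rpow (by linarith) (by positivity)
  refine ⟨min c (δ / 200) / 2 / 2, (2 * C) ^ (2 / (min c (δ / 200) / 2)), by linarith, hone, ?_⟩
  intro N Y hN hY1 hY2 s Φ hs
  have hN1 : 1 ≤ N := le_trans hone hN
  have hN0 : 0 < N := by linarith
  have hY0 : 0 ≤ Y := le_trans (Real.rpow_nonneg hN0.le _) hY1
  have hmain := h N Y (N ^ (1 / 2 - δ / 200)) hN1 hY1 hY2
    (Real.one_le_rpow hN1 (by linarith))
    (Real.rpow_le_rpow_of_exponent_le hN1 (by linarith)) s Φ hs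
  exact hmain.trans (UE_num N Y C (min c (δ / 200) / 2) c δ (by linarith) hC hN1 hN hY0
    (by linarith) (by linarith))

end Pool.Agent.T5
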